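import Pool.Agent.Zk12.HD.Stm

/-!
# Part QUAD of project HD: the square roots of a finite extension of `ℚ_2`
-/

set_option autoImplicit false
set_option linter.all false

open Topology Filter

namespace Pool.Agent.Zk47.HD

/-- in a complete field the squares are a neighbourhood of `1` -/
theorem sq_nhds {K : Type} [NontriviallyNormedField K] [CompleteSpace K] [CharZero K] :
    ∀ᶠ y in 𝓝 (1 : K), ∃ z : K, z ^ 2 = y := by
  have h1 := hasStrictDerivAt_pow 2 (1 : K)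
  have h2 := h1.map_nhds_eq (by norm_num)
  have h3 : ∀ᶠ y in 𝓝 ((1 : K) ^ 2), ∃ z : K, z ^ 2 = y := by
    rw [← h2]
    rw [Filter.eventually_map]
    exact Filter.Eventually.of_forall fun z => ⟨z, rfl⟩
  simpa using h3

theorem sq_nhds' {K : Type} [NontriviallyNormedField K] [CompleteSpace K] [CharZero K] {a : K}
    (ha : a ≠ 0) : ∀ᶠ y in 𝓝 a, ∃ z : K, y = a * z ^ 2 := by
  have h1 : Tendsto (fun y : K => y / a) (𝓝 a) (𝓝 1) := by
    have : Tendsto (fun y : K => y / a) (𝓝 a) (𝓝 (a / a)) :=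
      (continuous_id.div_const a).tendsto a
    rwa [div_self ha] at this
  filter_upwards [h1.eventually sq_nhds] with y hy
  obtain ⟨z, hz⟩ := hy
  refine ⟨z, ?_⟩
  rw [hz, mul_div_cancel₀ _ ha]

theorem quad : Pool.Agent.Zk12.HD.S_QUAD := by
  classical
  intro L₁ hL₁
  haveI := hL₁
  haveI : ProperSpace L₁ := FiniteDimensional.proper ℚ_[2] L₁
  haveI : CharZero L₁ := inferInstance
  let i1 : NontriviallyNormedField L₁ := inferInstance
  haveI : CompleteSpace L₁ := inferInstance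
  haveI : Algebra.IsAlgebraic ℚ_[2] (PadicAlgCl 2) := inferInstance
  -- the compact annulus
  obtain ⟨A, hA⟩ : ∃ A : Set L₁, A = Metric.closedBall 0 1 \ Metric.ball 0 (1 / 2) := ⟨_, rfl⟩
  have hAc : IsCompact A := by
    rw [hA]
    exact (isCompact_closedBall 0 1).diff Metric.isOpen_ball
  have hA0 : ∀ a ∈ A, a ≠ 0 := by
    rintro a ha rfl
    rw [hA] at ha
    exact ha.2 (Metric.mem_ball_self (by norm_num))
  obtain ⟨t, ht, hcov⟩ := hAc.elim_nhds_subcover (fun a => {y | ∃ z : L₁, y = a * z ^ 2})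
    fun a ha => sq_nhds' (hA0 a ha)
  -- the roots
  have hrt : ∀ a : PadicAlgCl 2, ∃ w : PadicAlgCl 2, w ^ 2 = a := fun a =>
    IsAlgClosed.exists_pow_nat_eq a (n := 2) (by norm_num)
  choose r hr using hrt
  obtain ⟨S, hS⟩ : ∃ S : Finset (PadicAlgCl 2),
      S = insert (r 2) (t.image fun a : L₁ => r (a : PadicAlgCl 2)) := ⟨_, rfl⟩
  haveI : FiniteDimensional ℚ_[2] (IntermediateField.adjoin ℚ_[2] (S : Set (PadicAlgCl 2))) :=
    IntermediateField.finiteDimensional_adjoin fun x _ => Algebra.IsIntegral.isIntegral x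
  refine ⟨L₁ ⊔ IntermediateField.adjoin ℚ_[2] (S : Set (PadicAlgCl 2)), le_sup_left, inferInstance, ?_⟩
  have hSL : ∀ x ∈ S, x ∈ L₁ ⊔ IntermediateField.adjoin ℚ_[2] (S : Set (PadicAlgCl 2)) := fun x hx =>
    (le_sup_right : IntermediateField.adjoin ℚ_[2] (S : Set (PadicAlgCl 2)) ≤ _)
      (IntermediateField.subset_adjoin _ _ hx)
  have hLL : ∀ x ∈ L₁, x ∈ L₁ ⊔ IntermediateField.adjoin ℚ_[2] (S : Set (PadicAlgCl 2)) := fun x hx =>
    (le_sup_left : L₁ ≤ _) hx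
  intro z hz
  by_cases hz0 : z = 0
  · exact ⟨0, zero_mem _, by rw [hz0]; norm_num⟩
  obtain ⟨n, hn1, hn2⟩ := exists_mem_Ioc_zpow (x := ‖z‖) (y := (2 : ℝ)) (norm_pos_iff.mpr hz0)
    (by norm_num)
  have h2n : ‖(2 : PadicAlgCl 2)‖ = 1 / 2 := by
    have h1 : ‖algebraMap ℚ_[2] (PadicAlgCl 2) (2 : ℚ_[2])‖ = ‖(2 : ℚ_[2])‖ := norm_algebraMap' _ _
    rw [map_ofNat] at h1
    rw [h1]
    have := Padic.norm_p (p := 2)
    simpa using this
  obtain ⟨y, hy⟩ : ∃ y : L₁, (y : PadicAlgCl 2) = z * 2 ^ (n + 1) :=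
    ⟨⟨z * 2 ^ (n + 1), mul_mem hz (zpow_mem (by exact_mod_cast (natCast_mem L₁ 2)) _)⟩, rfl⟩
  have hyn : ‖y‖ = ‖z‖ * (2 : ℝ) ^ (-(n + 1)) := by
    change ‖(y : PadicAlgCl 2)‖ = _
    rw [hy, norm_mul, norm_zpow, h2n, one_div, inv_zpow, zpow_neg]
  have hp : (0 : ℝ) < 2 ^ (-(n + 1)) := by positivity
  have hyA : y ∈ A := by
    rw [hA]
    constructor
    · rw [mem_closedBall_zero_iff, hyn]
      calc ‖z‖ * (2 : ℝ) ^ (-(n + 1)) ≤ 2 ^ (n + 1) * (2 : ℝ) ^ (-(n + 1)) :=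
            mul_le_mul_of_nonneg_right hn2 hp.le
        _ = 1 := by rw [← zpow_add₀ (by norm_num)]; simp
    · rw [mem_ball_zero_iff, hyn, not_lt]
      calc (1 / 2 : ℝ) = 2 ^ n * (2 : ℝ) ^ (-(n + 1)) := by
            rw [← zpow_add₀ (by norm_num)]
            norm_num
        _ ≤ ‖z‖ * (2 : ℝ) ^ (-(n + 1)) := mul_le_mul_of_nonneg_right hn1.le hp.le
  obtain ⟨a, ha, hya⟩ := Set.mem_iUnion₂.mp (hcov hyA)
  obtain ⟨v, hv⟩ := hya
  have hv' : (y : PadicAlgCl 2) = a * v ^ 2 := by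
    rw [hv]
    rfl
  have h2S : r 2 ∈ S := by
    rw [hS]
    exact Finset.mem_insert_self _ _
  have haS : r (a : PadicAlgCl 2) ∈ S := by
    rw [hS]
    exact Finset.mem_insert_of_mem (Finset.mem_image_of_mem (fun a : L₁ => r (a : PadicAlgCl 2)) ha)
  refine ⟨r (a : PadicAlgCl 2) * v * (r 2) ^ (-(n + 1)),
    mul_mem (mul_mem (hSL _ haS) (hLL _ v.2)) (zpow_mem (hSL _ h2S) _), ?_⟩
  have h3 : z = y * (2 : PadicAlgCl 2) ^ (-(n + 1)) := by
    rw [hy, mul_assoc, ← zpow_add₀ (by norm_num)]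
    simp
  rw [mul_pow, mul_pow, hr, h3, hv', ← zpow_natCast (r 2 ^ (-(n + 1))) 2, ← zpow_mul,
    mul_comm (-(n + 1)) _, zpow_mul, zpow_natCast, hr]

end Pool.Agent.Zk47.HD
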